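import Mathlib

/-!
# A monomial algebra of cubic growth without a greatest nilpotent ideal

Two generators act on functions of two variables `(n, i)`: the first one shifts `i` when `n + 1`
divides `i`, the second one when it does not, and the `n`-th component is cut off at a level `L n`.
The words which act in a nonzero way are factors of `(x y ^ n) ^ (2 n)`; there are only
polynomially many of them of a given length, and `x y ^ n x` generates a nilpotent ideal whose
index is not bounded.
-/

set_option autoImplicit false

namespace Pool.Agent.X278.GK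

variable (k : Type) [Field k]

/-- the cut off level of the `n`-th component -/
def L (n : ℕ) : ℕ := 2 * n * (n + 1)

/-- the letter `b` may be read at the place `i` of the component `n` -/
def Cnd (b : Bool) (n i : ℕ) : Prop := i < L n ∧ (b = true ↔ i % (n + 1) = 0)

instance (b : Bool) (n i : ℕ) : Decidable (Cnd b n i) := by unfold Cnd; infer_instance

/-- the operator of the letter `b` -/
def act (b : Bool) : Module.End k (ℕ → ℕ → k) where
  toFun f := fun n i => if Cnd b n i then f n (i + 1) else 0
  map_add' f g := by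
    funext n i
    by_cases h : Cnd b n i <;> simp [h]
  map_smul' c f := by
    funext n i
    by_cases h : Cnd b n i <;> simp [h]

lemma act_apply (b : Bool) (f : ℕ → ℕ → k) (n i : ℕ) :
    act k b f n i = if Cnd b n i then f n (i + 1) else 0 := rfl

/-- the representation of the free algebra -/
noncomputable def phi : FreeAlgebra k Bool →ₐ[k] Module.End k (ℕ → ℕ → k) :=
  FreeAlgebra.lift k (act k)

/-- the algebra generated by the two operators -/
noncomputable abbrev Alg := (phi k).range

/-- the generators -/
noncomputable def gen (b : Bool) : Alg k :=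
  (phi k).rangeRestrict (FreeAlgebra.ι k b)

lemma coe_gen (b : Bool) : ((gen k b : Alg k) : Module.End k (ℕ → ℕ → k)) = act k b := by
  change phi k (FreeAlgebra.ι k b) = act k b
  simp [phi]

/-- the word `w` may be read at the place `i` of the component `n` -/
def M : List Bool → ℕ → ℕ → Prop
  | [], _, _ => True
  | b :: w, n, i => Cnd b n i ∧ M w n (i + 1)

instance : ∀ (w : List Bool) (n i : ℕ), Decidable (M w n i)
  | [], _, _ => isTrue trivial
  | b :: w, n, i => by
      have := instDecidableM w n (i + 1)
      unfold M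
      infer_instance

lemma M_append (u v : List Bool) (n i : ℕ) :
    M (u ++ v) n i ↔ M u n i ∧ M v n (i + u.length) := by
  induction u generalizing i with
  | nil => simp [M]
  | cons b u ih =>
    simp only [List.cons_append, M, ih, List.length_cons, and_assoc]
    rw [show i + 1 + u.length = i + (u.length + 1) by omega]

/-- the element of a word -/
noncomputable def wd (w : List Bool) : Alg k := (w.map (gen k)).prod

@[simp] lemma wd_nil : wd k [] = 1 := rfl

lemma wd_cons (b : Bool) (w : List Bool) : wd k (b :: w) = gen k b * wd k w := by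
  simp [wd]

lemma wd_append (u v : List Bool) : wd k (u ++ v) = wd k u * wd k v := by
  simp [wd]

lemma wd_apply (w : List Bool) (f : ℕ → ℕ → k) (n i : ℕ) :
    ((wd k w : Alg k) : Module.End k (ℕ → ℕ → k)) f n i =
      if M w n i then f n (i + w.length) else 0 := by
  induction w generalizing i with
  | nil => simp [M]
  | cons b w ih =>
    rw [wd_cons, MulMemClass.coe_mul, coe_gen, Module.End.mul_apply, act_apply]
    by_cases h : Cnd b n i
    · rw [if_pos h, ih]
      by_cases h2 : M w n (i + 1)
      · rw [if_pos h2, if_pos ⟨h, h2⟩, List.length_cons]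
        congr 1
        omega
      · rw [if_neg h2, if_neg (fun h3 => h2 h3.2)]
    · rw [if_neg h, if_neg (fun h3 => h h3.1)]

/-- locality of the operators of the algebra -/
def Loc (a : Module.End k (ℕ → ℕ → k)) : Prop :=
  ∀ (f : ℕ → ℕ → k) (n i : ℕ), (∀ j, i ≤ j → j ≤ max i (L n) → f n j = 0) → a f n i = 0

lemma loc_all (a : Alg k) : Loc k (a : Module.End k (ℕ → ℕ → k)) := by
  obtain ⟨a, x, rfl⟩ := a
  change Loc k (phi k x)
  induction x using FreeAlgebra.induction with
  | grade0 r =>
    intro f n i h
    have h1 := h i le_rfl (le_max_left _ _)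
    simp [h1]
  | grade1 b =>
    intro f n i h
    have h2 : phi k (FreeAlgebra.ι k b) = act k b := by simp [phi]
    rw [h2, act_apply]
    by_cases h1 : Cnd b n i
    · rw [if_pos h1]
      exact h (i + 1) (by omega) (le_max_of_le_right h1.1)
    · rw [if_neg h1]
  | mul a b ha hb =>
    intro f n i h
    rw [map_mul, Module.End.mul_apply]
    apply ha
    intro j h1 h2
    apply hb
    intro j' h3 h4
    exact h j' (by omega) (by omega)
  | add a b ha hb =>
    intro f n i h
    rw [map_add, LinearMap.add_apply]
    simp only [Pi.add_apply]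
    rw [ha f n i h, hb f n i h, add_zero]

/-- the defining property of the ideal `I n` -/
def InI (n : ℕ) (a : Module.End k (ℕ → ℕ → k)) : Prop :=
  (∀ (f : ℕ → ℕ → k) (m i : ℕ), m ≠ n → a f m i = 0) ∧
  ∀ (f : ℕ → ℕ → k) (i : ℕ), (∀ j, i < j → j ≤ L n → f n j = 0) → a f n i = 0

/-- the nilpotent ideal `I n` -/
noncomputable def I (n : ℕ) : TwoSidedIdeal (Alg k) :=
  TwoSidedIdeal.mk' {a | InI k n (a : Module.End k (ℕ → ℕ → k))}
    (by
      refine ⟨fun f m i _ => ?_, fun f i _ => ?_⟩ <;> simp)
    (by
      rintro a b ⟨ha1, ha2⟩ ⟨hb1, hb2⟩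
      refine ⟨fun f m i hm => ?_, fun f i hf => ?_⟩
      · simp [ha1 f m i hm, hb1 f m i hm]
      · simp [ha2 f i hf, hb2 f i hf])
    (by
      rintro a ⟨ha1, ha2⟩
      refine ⟨fun f m i hm => ?_, fun f i hf => ?_⟩
      · simp [ha1 f m i hm]
      · simp [ha2 f i hf])
    (by
      rintro b a ⟨ha1, ha2⟩
      refine ⟨fun f m i hm => ?_, fun f i hf => ?_⟩
      · rw [MulMemClass.coe_mul, Module.End.mul_apply]
        apply loc_all k b
        intro j _ _
        exact ha1 f m j hm
      · rw [MulMemClass.coe_mul, Module.End.mul_apply]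
        apply loc_all k b
        intro j h1 _
        apply ha2
        intro j' h3 h4
        exact hf j' (by omega) h4)
    (by
      rintro a b ⟨ha1, ha2⟩
      refine ⟨fun f m i hm => ?_, fun f i hf => ?_⟩
      · rw [MulMemClass.coe_mul, Module.End.mul_apply]
        exact ha1 _ m i hm
      · rw [MulMemClass.coe_mul, Module.End.mul_apply]
        apply ha2
        intro j h1 h2
        apply loc_all k b
        intro j' h3 h4
        exact hf j' (by omega) (by omega))

lemma mem_I {n : ℕ} {a : Alg k} : a ∈ I k n ↔ InI k n (a : Module.End k (ℕ → ℕ → k)) := by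
  rw [I, TwoSidedIdeal.mem_mk']
  rfl

lemma prod_I (n : ℕ) (l : List (Alg k)) (hl : ∀ a ∈ l, a ∈ I k n) :
    (∀ (f : ℕ → ℕ → k) (m i : ℕ), m ≠ n → l ≠ [] → (l.prod : Module.End k (ℕ → ℕ → k)) f m i = 0) ∧
    ∀ (f : ℕ → ℕ → k) (i : ℕ), (∀ j, i + l.length ≤ j → j ≤ max i (L n) → f n j = 0) →
      ((l.prod : Alg k) : Module.End k (ℕ → ℕ → k)) f n i = 0 := by
  induction l with
  | nil =>
    refine ⟨fun f m i _ h => absurd rfl h, fun f i h => ?_⟩
    have := h i (by simp) (le_max_left _ _)
    simp [this]
  | cons a l ih =>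
    have ha := (mem_I k).1 (hl a (by simp))
    obtain ⟨ih1, ih2⟩ := ih (fun b hb => hl b (by simp [hb]))
    refine ⟨fun f m i hm _ => ?_, fun f i h => ?_⟩
    · rw [List.prod_cons, MulMemClass.coe_mul, Module.End.mul_apply]
      exact ha.1 _ m i hm
    · rw [List.prod_cons, MulMemClass.coe_mul, Module.End.mul_apply]
      apply ha.2
      intro j h1 h2
      apply ih2
      intro j' h3 h4
      apply h j'
      · rw [List.length_cons]; omega
      · omega

lemma I_nilp (n : ℕ) (f : Fin (L n + 1) → Alg k) (hf : ∀ i, f i ∈ I k n) :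
    (List.ofFn f).prod = 0 := by
  obtain ⟨h1, h2⟩ := prod_I k n (List.ofFn f) (by
    intro a ha
    rw [List.mem_ofFn] at ha
    obtain ⟨i, rfl⟩ := ha
    exact hf i)
  apply Subtype.ext
  apply LinearMap.ext
  intro g
  funext m i
  by_cases hm : m = n
  · subst hm
    rw [h2 g i]
    · rfl
    · intro j h3 h4
      rw [List.length_ofFn] at h3
      omega
  · rw [h1 g m i hm]
    · rfl
    · intro h
      have := congrArg List.length h
      simp at this

/-- the word `x y ^ n` -/
def blk (n : ℕ) : List Bool := true :: List.replicate n false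

lemma length_blk (n : ℕ) : (blk n).length = n + 1 := by simp [blk]

lemma M_replicate (n c i : ℕ) : M (List.replicate c false) n i ↔
    ∀ j, i ≤ j → j < i + c → j < L n ∧ j % (n + 1) ≠ 0 := by
  induction c generalizing i with
  | zero => simp [M]; intro j h1 h2; omega
  | succ c ih =>
    rw [List.replicate_succ, M, ih]
    constructor
    · rintro ⟨⟨h1, h2⟩, h3⟩ j h4 h5
      by_cases h6 : j = i
      · subst h6
        refine ⟨h1, fun h7 => ?_⟩
        have := h2.2 h7
        simp at this
      · exact h3 j (by omega) (by omega)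
    · intro h
      refine ⟨⟨(h i le_rfl (by omega)).1, ?_⟩, fun j h4 h5 => h j (by omega) (by omega)⟩
      have := (h i le_rfl (by omega)).2
      constructor
      · intro h; simp at h
      · intro h; exact absurd h this

lemma M_blk (n i : ℕ) (hi : i % (n + 1) = 0) (hL : i + (n + 1) ≤ L n) : M (blk n) n i := by
  refine ⟨⟨by omega, by simp [hi]⟩, ?_⟩
  rw [M_replicate]
  intro j h1 h2
  refine ⟨by omega, fun h3 => ?_⟩
  have h4 : (n + 1) ∣ i := Nat.dvd_of_mod_eq_zero hi
  have h5 : (n + 1) ∣ j := Nat.dvd_of_mod_eq_zero h3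
  have h6 : (n + 1) ∣ j - i := Nat.dvd_sub h5 h4
  have h7 := Nat.le_of_dvd (by omega) h6
  omega

/-- the element `x y ^ n x` lies in `I n` -/
lemma w_mem (n : ℕ) : wd k (blk n ++ [true]) ∈ I k n := by
  rw [mem_I]
  refine ⟨fun f m i hm => ?_, fun f i hf => ?_⟩
  · rw [wd_apply, if_neg]
    intro h
    rw [M_append, blk, M, M_replicate, M] at h
    obtain ⟨⟨h1, h2⟩, h3, _⟩ := h
    have e1 : i % (m + 1) = 0 := by have := h1.2; simpa using this
    have e2 : (i + (true :: List.replicate n false).length) % (m + 1) = 0 := by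
      have := h3.2; simpa using this
    simp only [List.length_cons, List.length_replicate] at e2
    have d1 : (m + 1) ∣ i := Nat.dvd_of_mod_eq_zero e1
    have d2 : (m + 1) ∣ i + (n + 1) := Nat.dvd_of_mod_eq_zero e2
    have d3 : (m + 1) ∣ n + 1 := (Nat.dvd_add_right d1).1 d2
    have h4 := Nat.le_of_dvd (by omega) d3
    have h5 : m < n := by omega
    have h6 := (h2 (i + (m + 1)) (by omega) (by omega)).2
    apply h6
    exact Nat.mod_eq_zero_of_dvd (Dvd.dvd.add d1 (dvd_refl _))
  · rw [wd_apply]
    split_ifs with h
    · rw [M_append] at h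
      obtain ⟨_, h3, _⟩ := h
      apply hf
      · simp [blk]
      · have := h3.1
        simp only [List.length_append, List.length_cons, List.length_nil]
        omega
    · rfl

lemma pow_ne_zero' (n m : ℕ) (hm : m ≤ n) :
    (wd k (blk n ++ [true]) * wd k (List.replicate n false)) ^ m ≠ 0 := by
  have hw : wd k (blk n ++ [true]) * wd k (List.replicate n false) = wd k (blk n ++ blk n) := by
    rw [← wd_append]
    simp [blk]
  rw [hw]
  have key : ∀ c i : ℕ, i % (n + 1) = 0 → i + c * (2 * (n + 1)) ≤ L n →
      ((wd k (blk n ++ blk n) ^ c : Alg k) :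
        Module.End k (ℕ → ℕ → k)) (fun _ _ => 1) n i = 1 := by
    intro c
    induction c with
    | zero => intro i _ _; simp
    | succ c ih =>
      intro i h1 h2
      have h3 : c * (2 * (n + 1)) + 2 * (n + 1) = (c + 1) * (2 * (n + 1)) := by ring
      rw [pow_succ', MulMemClass.coe_mul, Module.End.mul_apply, wd_apply, if_pos]
      · apply ih
        · rw [List.length_append, length_blk, ← Nat.add_assoc, Nat.add_mod_right,
            Nat.add_mod_right]
          exact h1
        · rw [List.length_append, length_blk]
          omega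
      · rw [M_append]
        refine ⟨M_blk n i h1 (by omega), ?_⟩
        rw [length_blk]
        apply M_blk
        · rw [Nat.add_mod_right]; exact h1
        · omega
  intro h
  have := key m 0 (by simp) (by
    unfold L
    have : m * (2 * (n + 1)) ≤ n * (2 * (n + 1)) := Nat.mul_le_mul_right _ hm
    calc 0 + m * (2 * (n + 1)) ≤ n * (2 * (n + 1)) := by omega
      _ = 2 * n * (n + 1) := by ring)
  rw [h] at this
  simp at this

/-- the shape of the words which act in a nonzero way -/
def pat (p d l : ℕ) : List Bool :=
  (List.range l).map (fun j => decide (p ≤ j ∧ (j - p) % (d + 1) = 0))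

lemma M_get (w : List Bool) (n i : ℕ) (h : M w n i) (j : ℕ) (hj : j < w.length) :
    Cnd w[j] n (i + j) := by
  induction w generalizing i j with
  | nil => simp at hj
  | cons b w ih =>
    cases j with
    | zero => exact h.1
    | succ j =>
      have := ih (i + 1) h.2 j (by simpa using hj)
      rw [show i + 1 + j = i + (j + 1) by omega] at this
      exact this

lemma arith (n i j : ℕ) : (i + j) % (n + 1) = 0 ↔
    ((n + 1 - i % (n + 1)) % (n + 1) ≤ j ∧ (j - (n + 1 - i % (n + 1)) % (n + 1)) % (n + 1) = 0) := by
  have hr : i % (n + 1) < n + 1 := Nat.mod_lt _ (by omega)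
  have h0 : (i + j) % (n + 1) = (i % (n + 1) + j) % (n + 1) := by
    rw [Nat.mod_add_mod]
  rw [h0]
  set r := i % (n + 1) with hrdef
  by_cases h : r = 0
  · rw [h]
    simp
  · have h2 : (n + 1 - r) % (n + 1) = n + 1 - r := Nat.mod_eq_of_lt (by omega)
    rw [h2]
    by_cases h3 : n + 1 - r ≤ j
    · have h4 : r + j = (j - (n + 1 - r)) + (n + 1) := by omega
      rw [h4, Nat.add_mod_right]
      simp [h3]
    · have h4 : r + j < n + 1 := by omega
      rw [Nat.mod_eq_of_lt h4]
      constructor
      · intro h5; omega
      · intro h5; exact absurd h5.1 h3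

lemma M_pat (w : List Bool) (n i m : ℕ) (h : M w n i) (hm : w.length ≤ m) :
    ∃ p ≤ m, ∃ d ≤ m, w = pat p d w.length := by
  refine ⟨min ((n + 1 - i % (n + 1)) % (n + 1)) m, min_le_right _ _, min n m, min_le_right _ _, ?_⟩
  apply List.ext_getElem
  · simp [pat]
  · intro j h1 h2
    have h3 := (M_get w n i h j h1).2
    rw [arith] at h3
    set q := (n + 1 - i % (n + 1)) % (n + 1) with hq
    have e : (pat (min q m) (min n m) w.length)[j] =
        decide (min q m ≤ j ∧ (j - min q m) % (min n m + 1) = 0) := by
      simp [pat]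
    rw [e]
    have h4 : (w[j] = true ↔ (min q m ≤ j ∧ (j - min q m) % (min n m + 1) = 0)) := by
      rw [h3]
      by_cases hqm : q ≤ m
      · rw [min_eq_left hqm]
        by_cases hnm : n ≤ m
        · rw [min_eq_left hnm]
        · rw [min_eq_right (by omega : m ≤ n)]
          rw [Nat.mod_eq_of_lt (by omega : j - q < n + 1),
            Nat.mod_eq_of_lt (by omega : j - q < m + 1)]
      · rw [min_eq_right (by omega : m ≤ q)]
        constructor
        · rintro ⟨h5, _⟩; omega
        · rintro ⟨h5, _⟩; omega
    by_cases h5 : w[j] = true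
    · rw [h5]
      symm
      exact decide_eq_true (h4.1 h5)
    · have h6 : w[j] = false := by simpa using h5
      rw [h6]
      symm
      exact decide_eq_false (fun h7 => h5 (h4.2 h7))

/-- the generating space -/
noncomputable def V : Submodule k (Alg k) := Submodule.span k {1, gen k true, gen k false}

open Pointwise in
lemma wpow_mem (m : ℕ) (a : Alg k) (ha : a ∈ ({1, gen k true, gen k false} : Set (Alg k)) ^ m) :
    ∃ w : List Bool, w.length ≤ m ∧ a = wd k w := by
  induction m generalizing a with
  | zero =>
    rw [pow_zero, Set.mem_one] at ha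
    exact ⟨[], by simp, by simp [ha]⟩
  | succ m ih =>
    rw [pow_succ', Set.mem_mul] at ha
    obtain ⟨b, hb, c, hc, rfl⟩ := ha
    obtain ⟨w, hw, rfl⟩ := ih c hc
    rcases hb with rfl | rfl | hb
    · exact ⟨w, by omega, by simp⟩
    · exact ⟨true :: w, by simpa using hw, by rw [wd_cons]⟩
    · rw [Set.mem_singleton_iff] at hb
      subst hb
      exact ⟨false :: w, by simpa using hw, by rw [wd_cons]⟩

open Classical in
/-- the finite spanning set of the `m`-th power of the generating space -/
noncomputable def spanSet (m : ℕ) : Finset (Alg k) :=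
  ((Finset.range (m + 1)) ×ˢ (Finset.range (m + 1)) ×ˢ (Finset.range (m + 1))).image
    (fun t => wd k (pat t.1 t.2.1 t.2.2))

lemma card_spanSet (m : ℕ) : (spanSet k m).card ≤ (m + 1) ^ 3 := by
  classical
  unfold spanSet
  refine Finset.card_image_le.trans ?_
  simp only [Finset.card_product, Finset.card_range]
  apply le_of_eq
  ring

open Pointwise in
lemma V_pow_le (m : ℕ) : (V k) ^ m ≤ Submodule.span k (spanSet k m : Set (Alg k)) := by
  classical
  rw [V, Submodule.span_pow, Submodule.span_le]
  intro a ha
  obtain ⟨w, hw, rfl⟩ := wpow_mem k m a ha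
  by_cases h : ∃ n i, M w n i
  · obtain ⟨n, i, h⟩ := h
    obtain ⟨p, hp, d, hd, e⟩ := M_pat w n i m h hw
    apply Submodule.subset_span
    rw [spanSet, Finset.coe_image, Set.mem_image]
    refine ⟨(p, d, w.length), ?_, ?_⟩
    · simp only [Finset.coe_product, Finset.coe_range, Set.mem_prod, Set.mem_Iio]
      omega
    · change wd k (pat p d w.length) = wd k w
      rw [← e]
  · have : wd k w = 0 := by
      apply Subtype.ext
      apply LinearMap.ext
      intro f
      funext n i
      rw [wd_apply, if_neg (fun h2 => h ⟨n, i, h2⟩)]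
      rfl
    rw [this]
    exact Submodule.zero_mem _

lemma finrank_V_pow (m : ℕ) : Module.finrank k ↥((V k) ^ m) ≤ 1 * (m + 1) ^ 3 := by
  rw [one_mul]
  have hfd : Module.Finite k (Submodule.span k (spanSet k m : Set (Alg k))) :=
    Module.Finite.span_finset k _
  exact (Submodule.finrank_mono (V_pow_le k m)).trans
    ((finrank_span_finset_le_card _).trans (card_spanSet k m))

lemma one_mem_V : (1 : Alg k) ∈ V k := Submodule.subset_span (by simp)

lemma gen_mem_V (b : Bool) : gen k b ∈ V k := Submodule.subset_span (by cases b <;> simp)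

lemma finDim_V : Module.Finite k (V k) := by
  unfold V
  exact Module.Finite.span_of_finite k (Set.toFinite _)

lemma adjoin_V : Algebra.adjoin k (V k : Set (Alg k)) = ⊤ := by
  rw [eq_top_iff]
  rintro a -
  obtain ⟨x, rfl⟩ := (phi k).rangeRestrict_surjective a
  induction x using FreeAlgebra.induction with
  | grade0 r =>
    rw [AlgHom.commutes]
    exact Subalgebra.algebraMap_mem _ r
  | grade1 b => exact Algebra.subset_adjoin (gen_mem_V k b)
  | mul a b ha hb =>
    rw [map_mul]
    exact Subalgebra.mul_mem _ ha hb
  | add a b ha hb =>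
    rw [map_add]
    exact Subalgebra.add_mem _ ha hb

lemma finType : Algebra.FiniteType k (Alg k) :=
  Algebra.FiniteType.of_surjective (phi k).rangeRestrict (phi k).rangeRestrict_surjective

/-- there is no greatest nilpotent ideal -/
theorem no_greatest : ¬ ∃ N : TwoSidedIdeal (Alg k),
    (∃ m : ℕ, ∀ f : Fin m → Alg k, (∀ i, f i ∈ N) → (List.ofFn f).prod = 0) ∧
    ∀ I : TwoSidedIdeal (Alg k),
      (∃ m : ℕ, ∀ f : Fin m → Alg k, (∀ i, f i ∈ I) → (List.ofFn f).prod = 0) → I ≤ N := by
  rintro ⟨N, ⟨m, hm⟩, hN⟩
  have h1 : I k m ≤ N := hN (I k m) ⟨L m + 1, I_nilp k m⟩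
  have h2 := hm (fun _ => wd k (blk m ++ [true]) * wd k (List.replicate m false))
    (fun _ => N.mul_mem_right _ _ (h1 (w_mem k m)))
  rw [List.ofFn_const, List.prod_replicate] at h2
  exact pow_ne_zero' k m m le_rfl h2

end Pool.Agent.X278.GK
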